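import Pool.Agent.H723R3.Beur.Stmts

set_option autoImplicit false
set_option linter.unusedSectionVars false

open scoped BoundedContinuousFunction Cardinal

namespace Pool.Agent.H632R3.BEUR

open Beur

universe u

variable {G : Type u} [TopologicalSpace G] [DiscreteTopology G]

/-- norm of the positive part -/
noncomputable def P (f : G →ᵇ ℝ) : ℝ := ‖f ⊔ 0‖

lemma P_nonneg (f : G →ᵇ ℝ) : 0 ≤ P f := norm_nonneg _

lemma P_spec (f : G →ᵇ ℝ) (x : G) : max (f x) 0 ≤ P f := by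
  have h := (f ⊔ 0).norm_coe_le_norm x
  have h2 : (f ⊔ 0) x = max (f x) 0 := rfl
  rw [h2, Real.norm_of_nonneg (le_max_right _ _)] at h
  exact h

lemma P_le (f : G →ᵇ ℝ) (C : ℝ) (hC : 0 ≤ C) (h : ∀ x, max (f x) 0 ≤ C) : P f ≤ C := by
  refine (BoundedContinuousFunction.norm_le hC).2 (fun x => ?_)
  have h2 : (f ⊔ 0) x = max (f x) 0 := rfl
  rw [h2, Real.norm_of_nonneg (le_max_right _ _)]
  exact h x

lemma P_add (f g : G →ᵇ ℝ) : P (f + g) ≤ P f + P g := by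
  refine P_le _ _ (add_nonneg (P_nonneg f) (P_nonneg g)) (fun x => ?_)
  have h1 := P_spec f x
  have h2 := P_spec g x
  refine max_le ?_ (add_nonneg (P_nonneg f) (P_nonneg g))
  have h3 := le_max_left (f x) 0
  have h4 := le_max_left (g x) 0
  show f x + g x ≤ _
  linarith

lemma P_smul_le (c : ℝ) (hc : 0 < c) (f : G →ᵇ ℝ) : P (c • f) ≤ c * P f := by
  refine P_le _ _ (mul_nonneg hc.le (P_nonneg f)) (fun x => ?_)
  refine max_le ?_ (mul_nonneg hc.le (P_nonneg f))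
  have h1 := (le_max_left (f x) 0).trans (P_spec f x)
  show c * f x ≤ _
  exact mul_le_mul_of_nonneg_left h1 hc.le

lemma P_smul (c : ℝ) (hc : 0 < c) (f : G →ᵇ ℝ) : P (c • f) = c * P f := by
  apply le_antisymm (P_smul_le c hc f)
  have h := P_smul_le c⁻¹ (inv_pos.2 hc) (c • f)
  rw [smul_smul, inv_mul_cancel₀ hc.ne', one_smul] at h
  calc c * P f ≤ c * (c⁻¹ * P (c • f)) := mul_le_mul_of_nonneg_left h hc.le
    _ = P (c • f) := by field_simp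

lemma P_le_norm (f : G →ᵇ ℝ) : P f ≤ ‖f‖ := by
  refine P_le _ _ (norm_nonneg _) (fun x => max_le ?_ (norm_nonneg _))
  exact (le_abs_self _).trans (f.norm_coe_le_norm x)

lemma P_neg (f : G →ᵇ ℝ) (h : ∀ x, f x ≤ 0) : P f = 0 := by
  apply le_antisymm _ (P_nonneg f)
  exact P_le _ _ le_rfl (fun x => max_le (h x) le_rfl)

/-- the functional on the antidiagonal -/
noncomputable def pm (Ψ : StrongDual ℝ (G →ᵇ ℝ)) : ((G →ᵇ ℝ) × (G →ᵇ ℝ)) →ₗ.[ℝ] ℝ where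
  domain := LinearMap.ker (LinearMap.fst ℝ (G →ᵇ ℝ) (G →ᵇ ℝ) + LinearMap.snd ℝ (G →ᵇ ℝ) (G →ᵇ ℝ))
  toFun := (Ψ.toLinearMap.comp (LinearMap.fst ℝ (G →ᵇ ℝ) (G →ᵇ ℝ))).comp (Submodule.subtype _)

theorem jordan (Ψ : StrongDual ℝ (G →ᵇ ℝ)) : ∃ a b : StrongDual ℝ (G →ᵇ ℝ),
    (∀ f : G →ᵇ ℝ, (∀ x, 0 ≤ f x) → 0 ≤ a f) ∧ (∀ f : G →ᵇ ℝ, (∀ x, 0 ≤ f x) → 0 ≤ b f) ∧
    Ψ = a - b := by
  have hΨ : 0 ≤ ‖Ψ‖ := norm_nonneg Ψ
  obtain ⟨Λ, h1, h2⟩ := exists_extension_of_le_sublinear (pm Ψ)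
    (fun z => ‖Ψ‖ * max (P z.1) (P z.2)) (by
      intro c hc z
      simp only [Prod.smul_fst, Prod.smul_snd]
      rw [P_smul c hc, P_smul c hc, ← mul_max_of_nonneg _ _ hc.le]
      ring) (by
      intro y z
      simp only [Prod.fst_add, Prod.snd_add]
      rw [← mul_add]
      apply mul_le_mul_of_nonneg_left _ hΨ
      apply max_le
      · exact (P_add _ _).trans (add_le_add (le_max_left _ _) (le_max_left _ _))
      · exact (P_add _ _).trans (add_le_add (le_max_right _ _) (le_max_right _ _))) (by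
      rintro ⟨⟨u, v⟩, huv⟩
      have huv' : u + v = 0 := huv
      have hv : v = -u := by rw [eq_neg_iff_add_eq_zero, add_comm]; exact huv'
      show Ψ u ≤ ‖Ψ‖ * max (P u) (P v)
      have h1 : Ψ u ≤ ‖Ψ‖ * ‖u‖ := (le_abs_self _).trans (Ψ.le_opNorm u)
      refine h1.trans (mul_le_mul_of_nonneg_left ?_ hΨ)
      rw [BoundedContinuousFunction.norm_le (le_max_of_le_left (P_nonneg u))]
      intro x
      rw [Real.norm_eq_abs, abs_le]
      constructor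
      · have h3 := (le_max_left (v x) 0).trans (P_spec v x)
        have h4 : v x = - u x := by rw [hv]; rfl
        rw [h4] at h3
        have := h3.trans (le_max_right (P u) (P v))
        linarith
      · exact ((le_max_left (u x) 0).trans (P_spec u x)).trans (le_max_left _ _))
  have hP0 : P (0 : G →ᵇ ℝ) = 0 := P_neg 0 (fun x => le_rfl)
  have ha : ∀ f : G →ᵇ ℝ, Λ (f, 0) ≤ ‖Ψ‖ * P f := by
    intro f
    refine (h2 (f, 0)).trans ?_
    simp only [hP0]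
    rw [max_eq_left (P_nonneg f)]
  have hb : ∀ f : G →ᵇ ℝ, Λ (0, f) ≤ ‖Ψ‖ * P f := by
    intro f
    refine (h2 (0, f)).trans ?_
    simp only [hP0]
    rw [max_eq_right (P_nonneg f)]
  have key : ∀ (A : (G →ᵇ ℝ) →ₗ[ℝ] ℝ), (∀ f, A f ≤ ‖Ψ‖ * P f) → ∀ f, ‖A f‖ ≤ ‖Ψ‖ * ‖f‖ := by
    intro A hA f
    rw [Real.norm_eq_abs, abs_le]
    constructor
    · have h3 := hA (-f)
      rw [map_neg] at h3
      have h4 := mul_le_mul_of_nonneg_left (P_le_norm (-f)) hΨ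
      rw [norm_neg] at h4
      linarith
    · exact (hA f).trans (mul_le_mul_of_nonneg_left (P_le_norm f) hΨ)
  have key2 : ∀ (A : (G →ᵇ ℝ) →ₗ[ℝ] ℝ), (∀ f, A f ≤ ‖Ψ‖ * P f) → ∀ f : G →ᵇ ℝ,
      (∀ x, 0 ≤ f x) → 0 ≤ A f := by
    intro A hA f hf
    have h3 := hA (-f)
    rw [map_neg, P_neg (-f) (fun x => by show - f x ≤ 0; linarith [hf x]), mul_zero] at h3
    linarith
  set A : (G →ᵇ ℝ) →ₗ[ℝ] ℝ := Λ.comp (LinearMap.inl ℝ (G →ᵇ ℝ) (G →ᵇ ℝ)) with hAdef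
  set B : (G →ᵇ ℝ) →ₗ[ℝ] ℝ := Λ.comp (LinearMap.inr ℝ (G →ᵇ ℝ) (G →ᵇ ℝ)) with hBdef
  have hA' : ∀ f, A f ≤ ‖Ψ‖ * P f := fun f => ha f
  have hB' : ∀ f, B f ≤ ‖Ψ‖ * P f := fun f => hb f
  refine ⟨LinearMap.mkContinuous A ‖Ψ‖ (key A hA'), LinearMap.mkContinuous B ‖Ψ‖ (key B hB'),
    fun f hf => key2 A hA' f hf, fun f hf => key2 B hB' f hf, ?_⟩
  ext f
  show Ψ f = A f - B f
  have hmem : (f, -f) ∈ (pm Ψ).domain := by
    show f + -f = 0
    rw [add_neg_cancel]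
  have h3 := h1 ⟨(f, -f), hmem⟩
  have h4 : (pm Ψ) ⟨(f, -f), hmem⟩ = Ψ f := rfl
  rw [h4] at h3
  rw [← h3]
  show Λ (f, -f) = Λ (f, 0) - Λ (0, f)
  rw [← map_sub]
  congr 1
  simp

theorem taskA6 : TaskA6.{u} := by
  intro G _ _ Ψ
  obtain ⟨a, b, ha, hb, h⟩ := jordan Ψ
  exact ⟨a, b, ha, hb, h⟩

end Pool.Agent.H632R3.BEUR
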